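import Pool.Agent.K7.H58.EG.Edge
import Pool.Agent.TH339.MP.X6

/-!
# The boundary values determine the Euler factors
-/

set_option autoImplicit false

namespace Pool.Agent.K7.H58.EG

open Complex Filter Topology MeasureTheory
open Pool.Agent.K7.H58.EP
open Pool.Agent.TH339.MP (PP FF bl ap tm bα norm_bα fα lα hasSum_lα exp_lα hasProd_α unique_b radial_x
  summable_tm aco aco_qq hasSum_aco qq two_le_qq volume_divSet volume_diff_ne)
open Pool.Agent.W350.Edge (divSet)

theorem FF_sub {β γ : PP → ℂ} {M N : ℝ} (hβ : ∀ x, ‖β x‖ ≤ M / (x.2 + 1 : ℕ)) (hγ : ∀ x, ‖γ x‖ ≤ N / (x.2 + 1 : ℕ))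
    {s : ℂ} (hs : 1 < s.re) : FF (fun x => β x - γ x) s = FF β s - FF γ s := by
  unfold FF
  rw [← (summable_tm hβ hs).tsum_sub (summable_tm hγ hs)]
  refine tsum_congr fun x => ?_
  unfold tm
  ring

/-- a series whose exponential is `1` is zero -/
theorem eq_zero_of_exp {β : PP → ℂ} {M : ℝ} (hβ : ∀ x, ‖β x‖ ≤ M / (x.2 + 1 : ℕ))
    (h : ∀ s : ℂ, 1 < s.re → Complex.exp (FF β s) = 1) : β = 0 := by
  have hab : LSeries.abscissaOfAbsConv (aco β) ≤ ((1 : ℝ) : EReal) := by
    refine LSeries.abscissaOfAbsConv_le_of_forall_lt_LSeriesSummable' fun y hy => ?_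
    have hy' : (1 : ℝ) < y := by exact_mod_cast hy
    exact (hasSum_aco hβ (s := (y : ℂ)) (by simpa using hy')).summable
  have hdiff : DifferentiableOn ℂ (LSeries (aco β)) {s : ℂ | 1 < s.re} := by
    refine (LSeries_differentiableOn (aco β)).mono fun s hs => ?_
    have hs' : (1 : ℝ) < s.re := hs
    exact lt_of_le_of_lt hab (by exact_mod_cast hs')
  have heq : ∀ s : ℂ, 1 < s.re → LSeries (aco β) s = FF β s := fun s hs => (hasSum_aco hβ hs).tsum_eq
  have hopen : IsOpen {s : ℂ | 1 < s.re} := isOpen_lt continuous_const Complex.continuous_re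
  have hd : ∀ s ∈ {s : ℂ | 1 < s.re}, HasDerivAt (LSeries (aco β)) 0 s := by
    intro s hs
    have h1 := (hdiff.differentiableAt (hopen.mem_nhds hs)).hasDerivAt
    have h2 := h1.cexp
    have h3 : (fun z => Complex.exp (LSeries (aco β) z)) =ᶠ[𝓝 s] fun _ => 1 := by
      filter_upwards [hopen.mem_nhds hs] with z hz
      rw [heq z hz]
      exact h z hz
    have h4 : HasDerivAt (fun z => Complex.exp (LSeries (aco β) z)) 0 s :=
      (hasDerivAt_const s (1 : ℂ)).congr_of_eventuallyEq h3
    have h5 := h2.unique h4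
    have h6 : deriv (LSeries (aco β)) s = 0 := by
      rcases mul_eq_zero.1 h5 with h7 | h7
      · exact absurd h7 (Complex.exp_ne_zero _)
      · exact h7
    rwa [h6] at h1
  have hconst : ∀ s : ℂ, 1 < s.re → LSeries (aco β) s = LSeries (aco β) 2 := by
    intro s hs
    refine (convex_halfSpace_re_gt 1).is_const_of_fderivWithin_eq_zero (𝕜 := ℂ) (f := LSeries (aco β))
      hdiff (fun z hz => ?_) hs (by simp)
    rw [fderivWithin_of_isOpen hopen hz]
    have := (hd z hz).hasFDerivAt.fderiv
    rw [this]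
    ext
    simp
  set C := LSeries (aco β) 2 with hC
  have hδ : ∀ s : ℂ, LSeries (fun n => if n = 1 then C else 0) s = C := by
    intro s
    unfold LSeries
    rw [tsum_eq_single 1]
    · rw [LSeries.term_of_ne_zero one_ne_zero, if_pos rfl]
      simp
    · intro n hn
      rcases eq_or_ne n 0 with rfl | hn0
      · exact LSeries.term_zero _ _
      · rw [LSeries.term_of_ne_zero hn0, if_neg hn, zero_div]
  have hδs : LSeries.abscissaOfAbsConv (fun n => if n = 1 then C else 0) < ⊤ := by
    have h1 : LSeriesSummable (fun n => if n = 1 then C else 0) 0 := by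
      unfold LSeriesSummable
      refine summable_of_ne_finset_zero (s := {1}) fun n hn => ?_
      rcases eq_or_ne n 0 with rfl | hn0
      · exact LSeries.term_zero _ _
      · rw [LSeries.term_of_ne_zero hn0, if_neg (by simpa using hn), zero_div]
    exact lt_of_le_of_lt h1.abscissaOfAbsConv_le (EReal.coe_lt_top _)
  have hfin : LSeries.abscissaOfAbsConv (aco β) < ⊤ := lt_of_le_of_lt hab (EReal.coe_lt_top _)
  funext x
  have hq : qq x ≠ 0 := by have := two_le_qq x; omega
  have h1 := LSeries.eq_of_LSeries_eventually_eq hfin hδs (by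
    filter_upwards [eventually_gt_atTop 1] with y hy
    rw [hδ, hconst _ (by simpa using hy)]) hq
  rw [aco_qq, if_neg (by have := two_le_qq x; omega)] at h1
  exact h1

/-- **Equality of the boundary values on a set of positive measure.** -/
theorem determines {n n' : ℕ} {b : GSpData n} {M : (ℤ × (Fin n → ℤ)) →₀ ℕ} {θ : ℝ} {S : Finset Nat.Primes}
    (h : ∀ p ∉ S, ∀ l ∈ M.support, ‖eig b l p‖ ≤ ((p : ℕ) : ℝ) ^ θ)
    {b' : GSpData n'} {M' : (ℤ × (Fin n' → ℤ)) →₀ ℕ} {S' : Finset Nat.Primes}
    (h' : ∀ p ∉ S', ∀ l ∈ M'.support, ‖eig b' l p‖ ≤ ((p : ℕ) : ℝ) ^ θ)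
    (hZ : volume {τ : ℝ | bd b M θ S τ = bd b' M' θ S' τ} ≠ 0) (p : Nat.Primes) (s : ℂ) (hs : 1 + θ ≤ s.re) :
    (if p ∈ S then 1 else factor b M s p) = if p ∈ S' then 1 else factor b' M' s p := by
  set Z := {τ : ℝ | bd b M θ S τ = bd b' M' θ S' τ} with hZd
  set β := cf b M θ S with hβ
  set γ := cf b' M' θ S' with hγ
  have hβn := norm_cf h
  have hγn := norm_cf h'
  have hsub : ∀ x, ‖β x - γ x‖ ≤ ((dg M : ℝ) + dg M') / (x.2 + 1 : ℕ) := by
    intro x
    refine (norm_sub_le _ _).trans ?_
    rw [add_div]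
    exact add_le_add (hβn x) (hγn x)
  have hvol : volume (Z \ (divSet (ap β) ∪ divSet (ap γ))) ≠ 0 :=
    volume_diff_ne hZ (measure_union_null (volume_divSet hβn) (volume_divSet hγn))
  have h1 := unique_b (h := fun _ => 1) (g := fun _ => 1) hsub isOpen_univ
    (by rw [Set.univ_inter]; exact (convex_halfSpace_re_gt 1).isPreconnected)
    (differentiableOn_const _) (differentiableOn_const _) hvol (fun _ _ => Set.mem_univ _) (fun τ hτ => by
      have h2 : τ ∉ divSet (ap β) := fun h3 => hτ.2 (Or.inl h3)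
      have h3 : τ ∉ divSet (ap γ) := fun h3 => hτ.2 (Or.inr h3)
      have h4 := (radial_x hβn h2).sub (radial_x hγn h3)
      have h5 := (Complex.continuous_exp.tendsto _).comp h4
      have h6 : Complex.exp (bl β τ - bl γ τ) = 1 := by
        rw [Complex.exp_sub]
        have h7 : Complex.exp (bl β τ) = Complex.exp (bl γ τ) := hτ.1
        rw [h7, div_self (Complex.exp_ne_zero _)]
      rw [h6] at h5
      have h8 := h5.sub_const 1
      rw [sub_self] at h8
      refine h8.congr' ?_
      filter_upwards [self_mem_nhdsWithin] with x hx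
      have hx' : (0 : ℝ) < x := hx
      simp only [Function.comp_apply, one_mul]
      rw [FF_sub hβn hγn (by simpa using hx')])
  have h2 : (fun x => β x - γ x) = 0 := by
    refine eq_zero_of_exp hsub fun s hs => ?_
    have := h1 s (Set.mem_univ _) hs
    rwa [one_mul] at this
  have h3 : β = γ := by
    funext x
    exact sub_eq_zero.1 (congrFun h2 x)
  have hs' : 1 ≤ (s - θ).re := by
    rw [Complex.sub_re, Complex.ofReal_re]
    linarith
  have h4 := hasSum_lα (norm_al h) p hs'
  have h5 := hasSum_lα (norm_al h') p hs'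
  have h6 : lα (al b M θ) (Sn S) (s - θ) p = lα (al b' M' θ) (Sn S') (s - θ) p := by
    refine h4.unique ?_
    have h7 : bα (al b M θ) (Sn S) = bα (al b' M' θ) (Sn S') := h3
    rw [h7]
    exact h5
  have h8 := congrArg Complex.exp h6
  rw [exp_lα (norm_al h) p hs', exp_lα (norm_al h') p hs', fα_eq, fα_eq] at h8
  exact h8

end Pool.Agent.K7.H58.EG
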