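import Pool.Agent.K7.H58.EP.Defs

/-!
# The edge of absolute convergence of the L-functions of `GSp(2n)`

Continuation of the definitions of `Pool.Agent.K7.H58.EP.Defs`.
-/

set_option autoImplicit false

namespace Pool.Agent.K7.H58.EG

open Filter Topology Pool.Agent.K7.H58.EP

/-- The number `l(b(p))`, an eigenvalue of `ρ(A_p)` if `l` is a weight of `ρ`. -/
noncomputable def eig {n : ℕ} (b : GSpData n) (l : ℤ × (Fin n → ℤ)) (p : Nat.Primes) : ℂ :=
  (((b p).1 ^ l.1 * ∏ i, (b p).2 i ^ l.2 i : ℂˣ) : ℂ)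

/-- The point `1 + θ + iτ` of the edge of the half-plane `Re s > 1 + θ`. -/
noncomputable def edge (θ τ : ℝ) : ℂ := ((1 + θ : ℝ) : ℂ) + τ * Complex.I

/-- The angle `|s - (1 + θ + iτ)| ≤ C (Re s - 1 - θ)` in the half-plane `Re s > 1 + θ`. -/
def angle (θ τ C : ℝ) : Set ℂ := {s : ℂ | 1 + θ < s.re ∧ ‖s - edge θ τ‖ ≤ C * (s.re - (1 + θ))}

/-- `L` continues holomorphically to a neighbourhood of the point `1 + θ + iτ`: near this point it agrees in
the half-plane `Re s > 1 + θ` with a function analytic at this point. -/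
def ContinuesAcross (L : ℂ → ℂ) (θ τ : ℝ) : Prop :=
  ∃ φ : ℂ → ℂ, AnalyticAt ℂ φ (edge θ τ) ∧ ∀ᶠ s in 𝓝 (edge θ τ), 1 + θ < s.re → L s = φ s

/-- The values at `s` of the functions in `A` which are analytic at `s`. -/
def values (A : Set (ℂ → ℂ)) (s : ℂ) : Set ℂ := {z : ℂ | ∃ g ∈ A, AnalyticAt ℂ g s ∧ g s = z}

/-- The Euler factor of `LW` at the prime `p`. -/
noncomputable def factor {n : ℕ} (b : GSpData n) (M : (ℤ × (Fin n → ℤ)) →₀ ℕ) (s : ℂ) (p : Nat.Primes) : ℂ :=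
  ∏ l ∈ M.support, ((1 - eig b l p * ((p : ℕ) : ℂ) ^ (-s))⁻¹) ^ M l

/-- The primes `p ≤ X`. -/
def primesUpTo (X : ℕ) : Finset Nat.Primes := (Finset.range (X + 1)).subtype Nat.Prime

/-- The quadratic symbol `(D/p)`, with the value `0` at `p = 2`. -/
def symb (D : ℤ) (p : Nat.Primes) : ℤ := if (p : ℕ) = 2 then 0 else jacobiSym D p

/-- The L-function twisted by the quadratic character `(D/·)`: the product over the primes `p ∉ S` of the factors
`∏_l (1 - (D/p) l(b(p)) p^{-s})⁻¹`. -/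
noncomputable def LTwist {n : ℕ} (S : Finset Nat.Primes) (b : GSpData n) (M : (ℤ × (Fin n → ℤ)) →₀ ℕ) (D : ℤ)
    (s : ℂ) : ℂ :=
  open Classical in
  ∏' p : Nat.Primes, if p ∈ S then 1 else
    ∏ l ∈ M.support, ((1 - (symb D p : ℂ) * eig b l p * ((p : ℕ) : ℂ) ^ (-s))⁻¹) ^ M l

/-- The degree of the L-function, the number of the weights with their multiplicities. -/
def degree {n : ℕ} (M : (ℤ × (Fin n → ℤ)) →₀ ℕ) : ℕ := ∑ l ∈ M.support, M l

end Pool.Agent.K7.H58.EG
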