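import Pool.Agent.K7.H58.EG.Defs
import Pool.Agent.TH345.ET.W
import Pool.Agent.TH339.MP.R1

/-!
# The L-functions of `GSp(2n)` at the edge
-/

set_option autoImplicit false

namespace Pool.Agent.K7.H58.EG

open Complex Filter Topology MeasureTheory
open Pool.Agent.K7.H58.EP
open Pool.Agent.TH339.MP (PP FF bl ap tm bα norm_bα fα lα hasSum_lα exp_lα hasProd_α line_sum bl_angle boundary
  FF_inj unique_b radial_x prod_eq_of_psum)
open Pool.Agent.TH345.ET (ep Cont bv ae_transcendental vals)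
open Pool.Agent.W350.Edge (divSet)

variable {n : ℕ}

/-- the index set of the eigenvalues -/
abbrev Ix (M : (ℤ × (Fin n → ℤ)) →₀ ℕ) : Type := Σ l : M.support, Fin (M l.1)

/-- the degree -/
abbrev dg (M : (ℤ × (Fin n → ℤ)) →₀ ℕ) : ℕ := Fintype.card (Ix M)

/-- the normalised eigenvalues -/
noncomputable def al (b : GSpData n) (M : (ℤ × (Fin n → ℤ)) →₀ ℕ) (θ : ℝ) (p : ℕ) (j : Fin (dg M)) : ℂ :=
  if hp : p.Prime then eig b ((Fintype.equivFin (Ix M)).symm j).1.1 ⟨p, hp⟩ * ((p : ℕ) : ℂ) ^ (-(θ : ℂ)) else 0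

/-- the excluded primes as natural numbers -/
noncomputable def Sn (S : Finset Nat.Primes) : Finset ℕ := S.map ⟨fun p : Nat.Primes => (p : ℕ), Subtype.val_injective⟩

theorem mem_Sn {S : Finset Nat.Primes} {p : Nat.Primes} : (p : ℕ) ∈ Sn S ↔ p ∈ S := by
  unfold Sn
  rw [Finset.mem_map]
  constructor
  · rintro ⟨q, hq, h⟩
    have h1 : q = p := Subtype.ext h
    rwa [← h1]
  · exact fun h => ⟨p, h, rfl⟩

theorem norm_al {b : GSpData n} {M : (ℤ × (Fin n → ℤ)) →₀ ℕ} {θ : ℝ} {S : Finset Nat.Primes}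
    (h : ∀ p ∉ S, ∀ l ∈ M.support, ‖eig b l p‖ ≤ ((p : ℕ) : ℝ) ^ θ) (p : ℕ) (hp : p.Prime) (hpS : p ∉ Sn S)
    (j : Fin (dg M)) : ‖al b M θ p j‖ ≤ 1 := by
  unfold al
  rw [dif_pos hp, norm_mul]
  have hp0 : (0 : ℝ) < p := by exact_mod_cast hp.pos
  have h1 : ‖((p : ℕ) : ℂ) ^ (-(θ : ℂ))‖ = (p : ℝ) ^ (-θ) := by
    rw [Complex.norm_natCast_cpow_of_pos hp.pos]
    simp
  have hpS' : (⟨p, hp⟩ : Nat.Primes) ∉ S := fun h' => hpS ((mem_Sn (p := ⟨p, hp⟩)).2 h')
  have h2 := h ⟨p, hp⟩ hpS' _ ((Fintype.equivFin (Ix M)).symm j).1.2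
  rw [h1]
  calc _ ≤ (p : ℝ) ^ θ * (p : ℝ) ^ (-θ) := by gcongr
    _ = 1 := by rw [← Real.rpow_add hp0]; simp

theorem prod_al (b : GSpData n) (M : (ℤ × (Fin n → ℤ)) →₀ ℕ) (θ : ℝ) (p : Nat.Primes) (s : ℂ) :
    ∏ j, (1 - al b M θ p j * ((p : ℕ) : ℂ) ^ (-(s - θ)))⁻¹ = factor b M s p := by
  unfold factor
  have hp0 : ((p : ℕ) : ℂ) ≠ 0 := by exact_mod_cast p.2.ne_zero
  have h1 : ∀ j, (1 - al b M θ p j * ((p : ℕ) : ℂ) ^ (-(s - θ)))⁻¹ =
      (fun i : Ix M => (1 - eig b i.1.1 p * ((p : ℕ) : ℂ) ^ (-s))⁻¹) ((Fintype.equivFin (Ix M)).symm j) := by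
    intro j
    unfold al
    rw [dif_pos p.2]
    simp only
    rw [mul_assoc, ← Complex.cpow_add _ _ hp0]
    have h2 : -(θ : ℂ) + -(s - θ) = -s := by ring
    rw [h2]
    rfl
  rw [Finset.prod_congr rfl fun j _ => h1 j]
  rw [Equiv.prod_comp (Fintype.equivFin (Ix M)).symm
    (fun i : Ix M => (1 - eig b i.1.1 p * ((p : ℕ) : ℂ) ^ (-s))⁻¹)]
  rw [Fintype.prod_sigma]
  simp only [Finset.prod_const, Finset.card_univ, Fintype.card_fin]
  exact Finset.prod_coe_sort M.support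
    (fun l => ((1 - eig b l p * ((p : ℕ) : ℂ) ^ (-s))⁻¹) ^ M l)

/-- the coefficients -/
noncomputable abbrev cf (b : GSpData n) (M : (ℤ × (Fin n → ℤ)) →₀ ℕ) (θ : ℝ) (S : Finset Nat.Primes) : PP → ℂ :=
  bα (al b M θ) (Sn S)

section
variable {b : GSpData n} {M : (ℤ × (Fin n → ℤ)) →₀ ℕ} {θ : ℝ} {S : Finset Nat.Primes}

theorem fα_eq (s : ℂ) (p : Nat.Primes) :
    fα (al b M θ) (Sn S) (s - θ) p = if p ∈ S then 1 else factor b M s p := by
  classical
  unfold fα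
  by_cases hp : p ∈ S
  · rw [if_pos (mem_Sn.2 hp), if_pos hp]
  · rw [if_neg (fun h => hp (mem_Sn.1 h)), if_neg hp, prod_al]

theorem LW_eq (h : ∀ p ∉ S, ∀ l ∈ M.support, ‖eig b l p‖ ≤ ((p : ℕ) : ℝ) ^ θ) {s : ℂ} (hs : 1 + θ < s.re) :
    LW S b M s = Complex.exp (FF (cf b M θ S) (s - θ)) := by
  classical
  have hs' : 1 < (s - θ).re := by
    rw [Complex.sub_re, Complex.ofReal_re]
    linarith
  have h1 := hasProd_α (norm_al h) hs'
  rw [← h1.tprod_eq]
  unfold LW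
  refine tprod_congr fun p => ?_
  rw [fα_eq]
  rfl

theorem edge_sub (τ : ℝ) : edge θ τ - θ = ep τ := by
  unfold edge ep
  push_cast
  ring

theorem norm_cf (h : ∀ p ∉ S, ∀ l ∈ M.support, ‖eig b l p‖ ≤ ((p : ℕ) : ℝ) ^ θ) (x : PP) :
    ‖cf b M θ S x‖ ≤ (dg M : ℝ) / (x.2 + 1 : ℕ) := norm_bα (norm_al h) x

/-- the boundary value -/
noncomputable def bd (b : GSpData n) (M : (ℤ × (Fin n → ℤ)) →₀ ℕ) (θ : ℝ) (S : Finset Nat.Primes) (τ : ℝ) : ℂ :=
  Complex.exp (bl (cf b M θ S) τ)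

/-- the exceptional set -/
def exc (b : GSpData n) (M : (ℤ × (Fin n → ℤ)) →₀ ℕ) (θ : ℝ) (S : Finset Nat.Primes) : Set ℝ :=
  divSet (ap (cf b M θ S))

theorem dimH_exc (h : ∀ p ∉ S, ∀ l ∈ M.support, ‖eig b l p‖ ≤ ((p : ℕ) : ℝ) ^ θ) : dimH (exc b M θ S) = 0 :=
  (boundary (norm_cf h)).2.1

theorem tendsto_angle (h : ∀ p ∉ S, ∀ l ∈ M.support, ‖eig b l p‖ ≤ ((p : ℕ) : ℝ) ^ θ) {τ : ℝ}
    (hτ : τ ∉ exc b M θ S) (C : ℝ) :
    Tendsto (LW S b M) (𝓝[angle θ τ C] (edge θ τ)) (𝓝 (bd b M θ S τ)) := by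
  have h5 := (Complex.continuous_exp.tendsto _).comp (bl_angle (norm_cf h) hτ C)
  have h6 : Tendsto (fun s : ℂ => s - edge θ τ) (𝓝[angle θ τ C] (edge θ τ))
      (𝓝[{z : ℂ | 0 < z.re ∧ ‖z‖ ≤ C * z.re}] 0) := by
    rw [tendsto_nhdsWithin_iff]
    constructor
    · have h7 : Tendsto (fun s : ℂ => s - edge θ τ) (𝓝 (edge θ τ)) (𝓝 (edge θ τ - edge θ τ)) :=
        (continuous_id.sub continuous_const).tendsto _
      rw [sub_self] at h7
      exact h7.mono_left nhdsWithin_le_nhds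
    · filter_upwards [self_mem_nhdsWithin] with s hs
      have hre : (s - edge θ τ).re = s.re - (1 + θ) := by
        unfold edge
        simp
      refine ⟨?_, ?_⟩
      · rw [hre]
        linarith [hs.1]
      · rw [hre]
        exact hs.2
  refine (h5.comp h6).congr' ?_
  filter_upwards [self_mem_nhdsWithin] with s hs
  rw [LW_eq h hs.1]
  simp only [Function.comp_apply]
  congr 2
  rw [← sub_eq_zero]
  unfold edge
  push_cast
  ring

theorem tendsto_product (h : ∀ p ∉ S, ∀ l ∈ M.support, ‖eig b l p‖ ≤ ((p : ℕ) : ℝ) ^ θ) {τ : ℝ}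
    (hτ : τ ∉ exc b M θ S) :
    Tendsto (fun X : ℕ => ∏ p ∈ (primesUpTo X) \ S, factor b M (edge θ τ) p) atTop (𝓝 (bd b M θ S τ)) := by
  classical
  have hs : (1 : ℝ) ≤ ((1 : ℂ) + τ * I).re := by simp
  have h1 := line_sum (norm_cf h) hτ
    (fun p => if hp : p.Prime then lα (al b M θ) (Sn S) (1 + τ * I) ⟨p, hp⟩ else 0) (fun p => by
      have h2 : (if hp : (p : ℕ).Prime then lα (al b M θ) (Sn S) (1 + τ * I) ⟨p, hp⟩ else 0) =
          lα (al b M θ) (Sn S) (1 + τ * I) p := by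
        rw [dif_pos p.2]
        rfl
      rw [h2]
      exact hasSum_lα (norm_al h) p hs)
  have h2 := (Complex.continuous_exp.tendsto _).comp h1
  have hF : ∀ X : ℕ, ∏ p ∈ (primesUpTo X) \ S, factor b M (edge θ τ) p =
      ∏ p ∈ (Finset.range (X + 1)).filter Nat.Prime, if hp : p.Prime then
        (if (⟨p, hp⟩ : Nat.Primes) ∈ S then (1 : ℂ) else factor b M (edge θ τ) ⟨p, hp⟩) else 1 := by
    intro X
    rw [← Finset.prod_subtype_eq_prod_filter]
    have h3 : ∏ p ∈ (primesUpTo X) \ S, factor b M (edge θ τ) p =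
        ∏ p ∈ primesUpTo X, if p ∈ S then (1 : ℂ) else factor b M (edge θ τ) p := by
      rw [Finset.sdiff_eq_filter, Finset.prod_filter]
      refine Finset.prod_congr rfl fun p _ => ?_
      by_cases hp : p ∈ S
      · rw [if_neg (not_not.2 hp), if_pos hp]
      · rw [if_pos hp, if_neg hp]
    rw [h3]
    refine Finset.prod_congr rfl fun p _ => ?_
    rw [dif_pos p.2]
    exact if_congr Iff.rfl rfl rfl
  refine h2.congr fun X => ?_
  rw [hF]
  simp only [Function.comp_apply]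
  rw [Complex.exp_sum]
  refine Finset.prod_congr rfl fun p hp => ?_
  have hpp : p.Prime := (Finset.mem_filter.1 hp).2
  rw [dif_pos hpp, dif_pos hpp]
  rw [exp_lα (norm_al h) ⟨p, hpp⟩ hs]
  have h3 : (1 : ℂ) + τ * I = edge θ τ - θ := by
    rw [edge_sub]
    rfl
  rw [h3]
  have h4 := fα_eq (b := b) (M := M) (θ := θ) (S := S) (edge θ τ) (⟨p, hpp⟩ : Nat.Primes)
  exact h4.trans (if_congr Iff.rfl rfl rfl)

theorem transcendental (h : ∀ p ∉ S, ∀ l ∈ M.support, ‖eig b l p‖ ≤ ((p : ℕ) : ℝ) ^ θ) {A : Set (ℂ → ℂ)}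
    (hA : A.Countable) : ∀ᵐ τ : ℝ, ContinuesAcross (LW S b M) θ τ ∨
      Transcendental (IntermediateField.adjoin ℚ (values A (edge θ τ))) (bd b M θ S τ) := by
  set A' : Set (ℂ → ℂ) := (fun g : ℂ → ℂ => fun s : ℂ => g (s + θ)) '' A with hA'
  have hsh : ∀ τ : ℝ, ep τ + θ = edge θ τ := by
    intro τ
    rw [← edge_sub (θ := θ) τ, sub_add_cancel]
  have h1 := ae_transcendental (h := fun _ => 1) (norm_cf h) (fun _ => analyticAt_const) (hA.image _ : A'.Countable)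
  filter_upwards [h1] with τ hτ
  rcases hτ with hτ | hτ
  · left
    obtain ⟨φ, hφ, hev⟩ := hτ
    refine ⟨fun s => φ (s - θ), ?_, ?_⟩
    · refine AnalyticAt.fun_comp (g := φ) (f := fun s : ℂ => s - θ) ?_ (analyticAt_id.sub analyticAt_const)
      rw [edge_sub]
      exact hφ
    · have h2 : Tendsto (fun s : ℂ => s - θ) (𝓝 (edge θ τ)) (𝓝 (ep τ)) := by
        have h3 : Tendsto (fun s : ℂ => s - θ) (𝓝 (edge θ τ)) (𝓝 (edge θ τ - θ)) :=
          (continuous_id.sub continuous_const).tendsto _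
        rwa [edge_sub] at h3
      filter_upwards [h2.eventually hev] with s hs hs1
      have hs' : 1 < (s - θ).re := by
        rw [Complex.sub_re, Complex.ofReal_re]
        linarith
      rw [LW_eq h hs1, ← hs hs', one_mul]
  · right
    have h2 : vals A' (ep τ) = values A (edge θ τ) := by
      ext z
      constructor
      · rintro ⟨_, ⟨g, hg, rfl⟩, h3, h4⟩
        refine ⟨g, hg, ?_, ?_⟩
        · have h5 : AnalyticAt ℂ (fun s : ℂ => (fun s : ℂ => g (s + θ)) (s - θ)) (edge θ τ) := by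
            refine AnalyticAt.fun_comp (g := fun s : ℂ => g (s + θ)) (f := fun s : ℂ => s - θ) ?_
              (analyticAt_id.sub analyticAt_const)
            rw [edge_sub]
            exact h3
          simpa using h5
        · rw [← hsh]
          exact h4
      · rintro ⟨g, hg, h3, h4⟩
        refine ⟨_, ⟨g, hg, rfl⟩, ?_, ?_⟩
        · refine AnalyticAt.fun_comp (g := g) (f := fun s : ℂ => s + θ) ?_ (analyticAt_id.add analyticAt_const)
          rw [hsh]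
          exact h3
        · change g (ep τ + θ) = z
          rw [hsh]
          exact h4
    have h3 : bv (cf b M θ S) (fun _ => 1) τ = bd b M θ S τ := by
      unfold bv bd
      rw [one_mul]
    rwa [h2, h3] at hτ

end

end Pool.Agent.K7.H58.EG
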