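import Pool.Agent.K7.H58.EG.Orders
import Pool.Agent.K7.H58.EG.Determ

/-!
# All representations at the same time
-/

set_option autoImplicit false

namespace Pool.Agent.K7.H58.EG

open Complex Filter Topology MeasureTheory
open Pool.Agent.K7.H58.EP

theorem countable_rep (n : ℕ) : Countable (GSpinRep n) := by
  have hinj : Function.Injective (fun ρ : GSpinRep n => ρ.mult) := by
    intro ρ ρ' h
    cases ρ
    cases ρ'
    simp only at h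
    subst h
    rfl
  exact hinj.countable

theorem countable_primes : Countable (Finset Nat.Primes) := inferInstance

/-- the angle is not empty near the point -/
theorem angle_neBot (θ τ : ℝ) : (𝓝[angle θ τ 1] (edge θ τ)).NeBot := by
  have h1 : Tendsto (fun x : ℝ => edge θ τ + x) (𝓝[>] 0) (𝓝[angle θ τ 1] (edge θ τ)) := by
    rw [tendsto_nhdsWithin_iff]
    constructor
    · have h2 : ContinuousAt (fun x : ℝ => edge θ τ + (x : ℂ)) 0 := by fun_prop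
      have h3 := h2.tendsto
      simp only [Complex.ofReal_zero, add_zero] at h3
      exact h3.mono_left nhdsWithin_le_nhds
    · filter_upwards [self_mem_nhdsWithin] with x hx
      have hx' : (0 : ℝ) < x := hx
      refine ⟨?_, ?_⟩
      · unfold edge
        simp
        exact hx'
      · rw [add_sub_cancel_left, Complex.norm_real, Real.norm_of_nonneg hx'.le]
        unfold edge
        simp
  exact h1.neBot

variable {n : ℕ} {b : GSpData n} {S₀ : Finset Nat.Primes} {θ : GSpinRep n → ℝ}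

theorem mono_hyp {S : Finset Nat.Primes} {M : (ℤ × (Fin n → ℤ)) →₀ ℕ} {t : ℝ}
    (h : ∀ p ∉ S₀, ∀ l ∈ M.support, ‖eig b l p‖ ≤ ((p : ℕ) : ℝ) ^ t) (hS : S₀ ⊆ S) :
    ∀ p ∉ S, ∀ l ∈ M.support, ‖eig b l p‖ ≤ ((p : ℕ) : ℝ) ^ t := fun p hp => h p fun h1 => hp (hS h1)

theorem part_one (hθ : ∀ ρ : GSpinRep n, ∀ p ∉ S₀, ∀ l ∈ ρ.mult.support, ‖eig b l p‖ ≤ ((p : ℕ) : ℝ) ^ θ ρ) :
    ∃ Z : Set ℝ, dimH Z = 0 ∧ ∀ τ ∉ Z, ∀ (ρ : GSpinRep n) (S : Finset Nat.Primes), S₀ ⊆ S → ∃ l : ℂ, l ≠ 0 ∧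
      Tendsto (fun X : ℕ => ∏ p ∈ (primesUpTo X) \ S, factor b ρ.mult (edge (θ ρ) τ) p) atTop (𝓝 l) ∧
      ∀ C : ℝ, Tendsto (LGSp S b ρ) (𝓝[angle (θ ρ) τ C] (edge (θ ρ) τ)) (𝓝 l) := by
  have := countable_rep n
  refine ⟨⋃ x : GSpinRep n × {S : Finset Nat.Primes // S₀ ⊆ S}, exc b x.1.mult (θ x.1) x.2.1, ?_, ?_⟩
  · rw [dimH_iUnion]
    refine le_antisymm (iSup_le fun x => ?_) bot_le
    rw [dimH_exc (mono_hyp (hθ x.1) x.2.2)]
  · intro τ hτ ρ S hS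
    have h1 : τ ∉ exc b ρ.mult (θ ρ) S := fun h => hτ (Set.mem_iUnion.2 ⟨(ρ, ⟨S, hS⟩), h⟩)
    have h2 := mono_hyp (hθ ρ) hS
    exact ⟨bd b ρ.mult (θ ρ) S τ, Complex.exp_ne_zero _, tendsto_product h2 h1, fun C => tendsto_angle h2 h1 C⟩

theorem part_two (hθ : ∀ ρ : GSpinRep n, ∀ p ∉ S₀, ∀ l ∈ ρ.mult.support, ‖eig b l p‖ ≤ ((p : ℕ) : ℝ) ^ θ ρ)
    {A : Set (ℂ → ℂ)} (hA : A.Countable) :
    ∀ᵐ τ : ℝ, ∀ (ρ : GSpinRep n) (S : Finset Nat.Primes), S₀ ⊆ S →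
      ContinuesAcross (LGSp S b ρ) (θ ρ) τ ∨
      ∃ l : ℂ, (∀ C : ℝ, Tendsto (LGSp S b ρ) (𝓝[angle (θ ρ) τ C] (edge (θ ρ) τ)) (𝓝 l)) ∧
        Transcendental (IntermediateField.adjoin ℚ (values A (edge (θ ρ) τ))) l := by
  have := countable_rep n
  rw [ae_all_iff]
  intro ρ
  rw [ae_all_iff]
  intro S
  by_cases hS : S₀ ⊆ S
  · have h2 := mono_hyp (hθ ρ) hS
    have h3 : ∀ᵐ τ : ℝ, τ ∉ exc b ρ.mult (θ ρ) S :=
      measure_eq_zero_iff_ae_notMem.1 (Pool.Agent.TH339.MP.volume_divSet (norm_cf h2))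
    filter_upwards [transcendental h2 hA, h3] with τ h4 h5 _
    rcases h4 with h4 | h4
    · exact Or.inl h4
    · exact Or.inr ⟨_, fun C => tendsto_angle h2 h5 C, h4⟩
  · exact Eventually.of_forall fun τ h => absurd h hS

theorem part_four {n' : ℕ} {b' : GSpData n'} {t : ℝ} {M : (ℤ × (Fin n → ℤ)) →₀ ℕ} {M' : (ℤ × (Fin n' → ℤ)) →₀ ℕ}
    {S S' : Finset Nat.Primes} (h : ∀ p ∉ S, ∀ l ∈ M.support, ‖eig b l p‖ ≤ ((p : ℕ) : ℝ) ^ t)
    (h' : ∀ p ∉ S', ∀ l ∈ M'.support, ‖eig b' l p‖ ≤ ((p : ℕ) : ℝ) ^ t)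
    (hZ : volume {τ : ℝ | ∃ l : ℂ, Tendsto (LW S b M) (𝓝[angle t τ 1] (edge t τ)) (𝓝 l) ∧
      Tendsto (LW S' b' M') (𝓝[angle t τ 1] (edge t τ)) (𝓝 l)} ≠ 0) (p : Nat.Primes) (s : ℂ) (hs : 1 + t ≤ s.re) :
    (if p ∈ S then 1 else factor b M s p) = if p ∈ S' then 1 else factor b' M' s p := by
  refine determines h h' ?_ p s hs
  have h1 := Pool.Agent.TH339.MP.volume_diff_ne hZ
    (measure_union_null (Pool.Agent.TH339.MP.volume_divSet (norm_cf h))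
      (Pool.Agent.TH339.MP.volume_divSet (norm_cf h')))
  intro h2
  apply h1
  refine measure_mono_null ?_ h2
  rintro τ ⟨⟨l, h3, h4⟩, h5⟩
  have h6 : τ ∉ exc b M t S := fun h7 => h5 (Or.inl h7)
  have h7 : τ ∉ exc b' M' t S' := fun h8 => h5 (Or.inr h8)
  have hne := angle_neBot t τ
  have h8 := tendsto_nhds_unique h3 (tendsto_angle h h6 1)
  have h9 := tendsto_nhds_unique h4 (tendsto_angle h' h7 1)
  change bd b M t S τ = bd b' M' t S' τ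
  rw [← h8, ← h9]

end Pool.Agent.K7.H58.EG
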