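import Pool.Agent.K7.H58.EG.Edge
import Pool.Agent.H341R2.TwoSided
import Pool.Agent.H341R2.TwistBessel

/-!
# The orders at the edge
-/

set_option autoImplicit false

namespace Pool.Agent.K7.H58.EG

open Complex Filter Topology MeasureTheory ComplexConjugate
open Pool.Agent.K7.H58.EP
open Pool.Agent.H341R2 (E lam vv two_sided twist_bessel norm_vv_le conj_prime_cpow_I norm_prime_cpow_I)
open Pool.Agent.Helper919 (XX XX_apply XX_abs_le)

variable {n : ℕ}

theorem symb_eq (D : ℤ) (p : Nat.Primes) : ((XX D p : ℝ) : ℂ) = (symb D p : ℂ) := by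
  unfold symb
  rw [XX_apply]
  by_cases h : (p : ℕ) = 2
  · rw [if_pos h, if_neg]
    · simp
    · rw [h]
      decide
  · rw [if_neg h, if_pos (p.2.odd_of_ne_two h)]
    push_cast
    rfl

theorem dg_eq (M : (ℤ × (Fin n → ℤ)) →₀ ℕ) : dg M = degree M := by
  unfold dg degree
  rw [Fintype.card_sigma]
  simp only [Fintype.card_fin]
  exact Finset.sum_coe_sort M.support (fun l => M l)

section
variable {b : GSpData n} {M : (ℤ × (Fin n → ℤ)) →₀ ℕ} {θ : ℝ} {S : Finset Nat.Primes}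

open Classical in
/-- the normalised traces -/
noncomputable def tt (b : GSpData n) (M : (ℤ × (Fin n → ℤ)) →₀ ℕ) (θ : ℝ) (S : Finset Nat.Primes)
    (p : Nat.Primes) : ℂ := if p ∈ S then 0 else ∑ j, al b M θ p j

theorem norm_al' (h : ∀ p ∉ S, ∀ l ∈ M.support, ‖eig b l p‖ ≤ ((p : ℕ) : ℝ) ^ θ) {p : Nat.Primes} (hp : p ∉ S)
    (j : Fin (dg M)) : ‖al b M θ p j‖ ≤ 1 := norm_al h p p.2 (fun h1 => hp (mem_Sn.1 h1)) j

theorem norm_tt (h : ∀ p ∉ S, ∀ l ∈ M.support, ‖eig b l p‖ ≤ ((p : ℕ) : ℝ) ^ θ) (p : Nat.Primes) :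
    ‖tt b M θ S p‖ ≤ degree M := by
  unfold tt
  split_ifs with hp
  · simp
  · refine (norm_sum_le_of_le (n := fun _ => (1 : ℝ)) _ fun j _ => norm_al' h hp j).trans ?_
    rw [Finset.sum_const, Finset.card_univ, Fintype.card_fin, nsmul_eq_mul, mul_one, dg_eq]

theorem prod_al_twist (b : GSpData n) (M : (ℤ × (Fin n → ℤ)) →₀ ℕ) (θ : ℝ) (p : Nat.Primes) (c s : ℂ) :
    ∏ j, (1 - c * al b M θ p j * ((p : ℕ) : ℂ) ^ (-(s - θ)))⁻¹ =
      ∏ l ∈ M.support, ((1 - c * eig b l p * ((p : ℕ) : ℂ) ^ (-s))⁻¹) ^ M l := by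
  have hp0 : ((p : ℕ) : ℂ) ≠ 0 := by exact_mod_cast p.2.ne_zero
  have h1 : ∀ j, (1 - c * al b M θ p j * ((p : ℕ) : ℂ) ^ (-(s - θ)))⁻¹ =
      (fun i : Ix M => (1 - c * eig b i.1.1 p * ((p : ℕ) : ℂ) ^ (-s))⁻¹) ((Fintype.equivFin (Ix M)).symm j) := by
    intro j
    unfold al
    rw [dif_pos p.2]
    simp only
    rw [← mul_assoc c, mul_assoc (c * _), ← Complex.cpow_add _ _ hp0]
    have h2 : -(θ : ℂ) + -(s - θ) = -s := by ring
    rw [h2]
    rfl
  rw [Finset.prod_congr rfl fun j _ => h1 j]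
  rw [Equiv.prod_comp (Fintype.equivFin (Ix M)).symm
    (fun i : Ix M => (1 - c * eig b i.1.1 p * ((p : ℕ) : ℂ) ^ (-s))⁻¹)]
  rw [Fintype.prod_sigma]
  simp only [Finset.prod_const, Finset.card_univ, Fintype.card_fin]
  exact Finset.prod_coe_sort M.support
    (fun l => ((1 - c * eig b l p * ((p : ℕ) : ℂ) ^ (-s))⁻¹) ^ M l)

/-- the order at a point of the edge -/
theorem order (h : ∀ p ∉ S, ∀ l ∈ M.support, ‖eig b l p‖ ≤ ((p : ℕ) : ℝ) ^ θ) (D : ℤ) (τ : ℝ) {Λ : ℂ → ℂ}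
    (hΛ : MeromorphicAt Λ (edge θ τ))
    (hL : ∀ᶠ s in 𝓝 (edge θ τ), 1 + θ < s.re → Λ s = LTwist S b M D s) :
    ∃ m : ℤ, meromorphicOrderAt Λ (edge θ τ) = m ∧
      ∃ C : ℝ, ∀ᶠ ε : ℝ in 𝓝[>] 0,
        |(E ε fun p => (tt b M θ S p * conj (vv (D, τ) p)).re) + m * lam ε| ≤ C := by
  classical
  have hfin : {p : Nat.Primes | ¬ p ∉ S}.Finite := by
    refine (S.finite_toSet).subset fun p hp => ?_
    have : ¬ p ∉ S := hp
    exact not_not.1 this
  have hvv : ∀ p : Nat.Primes, conj (vv (D, τ) p) = (symb D p : ℂ) * ((p : ℕ) : ℂ) ^ (-(τ * I)) := by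
    intro p
    unfold vv
    rw [map_mul, conj_prime_cpow_I, Complex.conj_ofReal, symb_eq]
  have hc : ∀ p : Nat.Primes, ‖(symb D p : ℂ)‖ ≤ 1 := by
    intro p
    rw [← symb_eq, Complex.norm_real]
    exact XX_abs_le _ _
  have hz : ∀ (p : Nat.Primes) (_ : p ∉ S) (ε : ℝ) (_ : 0 < ε) (j : Fin (dg M)),
      ‖(symb D p : ℂ) * al b M θ p j * ((p : ℕ) : ℂ) ^ (-(1 + ε + τ * I))‖ ≤ ((p : ℕ) : ℝ)⁻¹ := by
    intro p hp ε hε j
    have hp1 : (1 : ℝ) ≤ (p : ℕ) := by exact_mod_cast p.2.one_lt.le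
    have h1 : ‖((p : ℕ) : ℂ) ^ (-(1 + ε + τ * I))‖ = ((p : ℕ) : ℝ) ^ (-(1 + ε)) := by
      rw [Complex.norm_natCast_cpow_of_pos p.2.pos]
      simp
    rw [norm_mul, norm_mul, h1]
    have h2 : ((p : ℕ) : ℝ) ^ (-(1 + ε)) ≤ ((p : ℕ) : ℝ)⁻¹ := by
      rw [← Real.rpow_neg_one]
      exact Real.rpow_le_rpow_of_exponent_le hp1 (by linarith)
    calc ‖(symb D p : ℂ)‖ * ‖al b M θ p j‖ * ((p : ℕ) : ℝ) ^ (-(1 + ε)) ≤ 1 * 1 * ((p : ℕ) : ℝ)⁻¹ := by
          gcongr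
          · exact hc p
          · exact norm_al' h hp j
      _ = _ := by ring
  set a : Nat.Primes → ℂ := fun p => tt b M θ S p * conj (vv (D, τ) p) with ha
  set G : ℝ → Nat.Primes → ℂ := fun ε p => ∑ j, -Complex.log (1 - (symb D p : ℂ) * al b M θ p j *
    ((p : ℕ) : ℂ) ^ (-(1 + ε + τ * I))) with hG
  have hlt : ∀ (p : Nat.Primes) (_ : p ∉ S) (ε : ℝ) (_ : 0 < ε) (j : Fin (dg M)),
      ‖(symb D p : ℂ) * al b M θ p j * ((p : ℕ) : ℂ) ^ (-(1 + ε + τ * I))‖ ≤ 1 / 2 := by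
    intro p hp ε hε j
    refine (hz p hp ε hε j).trans ?_
    have hp2 : (2 : ℝ) ≤ (p : ℕ) := by exact_mod_cast p.2.two_le
    rw [one_div]
    exact inv_anti₀ (by norm_num) hp2
  have key := two_sided (Good := fun p => p ∉ S) hfin (fun _ => 1) (edge θ τ) (fun p _ => by simp) a
    (K := degree M) (fun p => by
      simp only [ha]
      rw [norm_mul, RCLike.norm_conj]
      have h1 := norm_tt h p
      have h2 := norm_vv_le (D, τ) p
      calc _ ≤ (degree M : ℝ) * 1 := by gcongr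
        _ = _ := by ring)
    (fun p hp => by
      simp only [ha, tt]
      rw [if_pos (not_not.1 hp), zero_mul])
    G (C := dg M) (fun ε hε p hp => by
      simp only [hG, ha, tt]
      rw [if_neg hp, hvv p]
      have hsplit : ∑ j, al b M θ p j * ((symb D p : ℂ) * ((p : ℕ) : ℂ) ^ (-(τ * I))) *
          (((p : ℕ) : ℝ) ^ (-(1 + ε)) : ℝ) = ∑ j, (symb D p : ℂ) * al b M θ p j *
          ((p : ℕ) : ℂ) ^ (-(1 + ε + τ * I)) := by
        refine Finset.sum_congr rfl fun j _ => ?_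
        have hp0 : ((p : ℕ) : ℂ) ≠ 0 := by exact_mod_cast p.2.ne_zero
        have h1 : ((((p : ℕ) : ℝ) ^ (-(1 + ε)) : ℝ) : ℂ) = ((p : ℕ) : ℂ) ^ (-(1 + ε : ℂ)) := by
          rw [Complex.ofReal_cpow (Nat.cast_nonneg _)]
          push_cast
          rfl
        have h2 : ((p : ℕ) : ℂ) ^ (-(1 + ε + τ * I)) =
            ((p : ℕ) : ℂ) ^ (-(1 + ε : ℂ)) * ((p : ℕ) : ℂ) ^ (-(τ * I)) := by
          rw [← Complex.cpow_add _ _ hp0]
          congr 1
          ring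
        rw [h1, h2]
        ring
      rw [Finset.sum_mul, Finset.sum_mul, hsplit, ← Finset.sum_sub_distrib]
      refine (norm_sum_le_of_le (n := fun _ => (((p : ℕ) : ℝ)) ^ (-2 : ℝ)) _ fun j _ => ?_).trans ?_
      · set z := (symb D p : ℂ) * al b M θ p j * ((p : ℕ) : ℂ) ^ (-(1 + ε + τ * I)) with hzdef
        have hz1 := hlt p hp ε hε j
        have hz2 := hz p hp ε hε j
        have h3 := Complex.norm_log_one_add_sub_self_le (z := -z) (by rw [norm_neg]; linarith)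
        have h4 : -Complex.log (1 - z) - z = -(Complex.log (1 + -z) - -z) := by
          rw [sub_neg_eq_add, ← sub_eq_add_neg]
          ring
        rw [h4, norm_neg]
        refine h3.trans ?_
        rw [norm_neg]
        have h5 : (1 - ‖z‖)⁻¹ ≤ 2 := by
          rw [inv_le_comm₀ (by linarith) (by norm_num)]
          linarith
        have h6 : ((p : ℕ) : ℝ) ^ (-2 : ℝ) = (((p : ℕ) : ℝ)⁻¹) ^ 2 := by
          rw [Real.rpow_neg (Nat.cast_nonneg _), inv_pow]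
          norm_num
        rw [h6]
        have h7 : ‖z‖ ^ 2 ≤ (((p : ℕ) : ℝ)⁻¹) ^ 2 := pow_le_pow_left₀ (norm_nonneg _) hz2 2
        have h8 : (0 : ℝ) ≤ (1 - ‖z‖)⁻¹ := inv_nonneg.2 (by linarith)
        nlinarith [sq_nonneg ‖z‖]
      · rw [Finset.sum_const, Finset.card_univ, Fintype.card_fin, nsmul_eq_mul])
    hΛ (by
      have hpath : Tendsto (fun ε : ℝ => edge θ τ + ε) (𝓝[>] 0) (𝓝 (edge θ τ)) :=
        Pool.Agent.H341R2.path_tendsto' _
      filter_upwards [hpath.eventually hL, self_mem_nhdsWithin] with ε h1 hε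
      have hε' : (0 : ℝ) < ε := hε
      have hre : 1 + θ < (edge θ τ + ε).re := by
        unfold edge
        simp
        exact hε'
      rw [h1 hre]
      unfold LTwist
      refine tprod_congr fun p => ?_
      by_cases hp : p ∈ S
      · rw [if_pos hp, if_neg (not_not.2 hp)]
        simp
      · rw [if_neg hp, if_pos hp]
        simp only [hG]
        rw [Complex.exp_sum, ← prod_al_twist b M θ p]
        refine Finset.prod_congr rfl fun j _ => ?_
        have h2 : -(edge θ τ + ε - θ) = -(1 + ε + τ * I) := by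
          unfold edge
          push_cast
          ring
        rw [h2, Complex.exp_neg, Complex.exp_log]
        intro h3
        have h4 := hlt p hp ε hε' j
        rw [← sub_eq_zero.1 h3, norm_one] at h4
        norm_num at h4)
  exact key

/-- **The sum of the squares of the orders.** -/
theorem sum_sq (h : ∀ p ∉ S, ∀ l ∈ M.support, ‖eig b l p‖ ≤ ((p : ℕ) : ℝ) ^ θ) (K : Finset (ℤ × ℝ))
    (hK : ∀ k ∈ K, Squarefree k.1) (Λ : ℤ × ℝ → ℂ → ℂ)
    (hΛ : ∀ k ∈ K, MeromorphicAt (Λ k) (edge θ k.2) ∧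
      ∀ᶠ s in 𝓝 (edge θ k.2), 1 + θ < s.re → Λ k s = LTwist S b M k.1 s) :
    ∃ m : ℤ × ℝ → ℤ, (∀ k ∈ K, meromorphicOrderAt (Λ k) (edge θ k.2) = m k) ∧
      ∑ k ∈ K, (m k) ^ 2 ≤ (degree M : ℤ) ^ 2 := by
  classical
  have h1 : ∀ k : ℤ × ℝ, ∃ m : ℤ, k ∈ K → meromorphicOrderAt (Λ k) (edge θ k.2) = m ∧
      ∃ C : ℝ, ∀ᶠ ε : ℝ in 𝓝[>] 0,
        |(E ε fun p => (tt b M θ S p * conj (vv k p)).re) + m * lam ε| ≤ C := by
    intro k
    by_cases hk : k ∈ K
    · obtain ⟨m, h2, h3⟩ := order h k.1 k.2 (hΛ k hk).1 (hΛ k hk).2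
      exact ⟨m, fun _ => ⟨h2, h3⟩⟩
    · exact ⟨0, fun h => absurd h hk⟩
  choose m hm using h1
  refine ⟨m, fun k hk => (hm k hk).1, ?_⟩
  have h2 := twist_bessel (tt b M θ S) (degree M) (norm_tt h) K hK (fun k => m k)
    (by
      intro k hk
      obtain ⟨C, hC⟩ := (hm k hk).2
      refine ⟨|(m k : ℝ)| * C, ?_⟩
      filter_upwards [hC] with ε hε
      set e := E ε fun p => (tt b M θ S p * conj (vv k p)).re
      have h3 : (m k : ℝ) * e = m k * (e + m k * lam ε) - (m k) ^ 2 * lam ε := by ring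
      rw [h3]
      have h4 : (m k : ℝ) * (e + m k * lam ε) ≤ |(m k : ℝ)| * C := by
        refine (le_abs_self _).trans ?_
        rw [abs_mul]
        exact mul_le_mul_of_nonneg_left hε (abs_nonneg _)
      linarith)
  exact_mod_cast h2

end

end Pool.Agent.K7.H58.EG
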